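import Mathlib
import Pool.Agent.Lib.MP_abcac9_co.Graph

set_option autoImplicit false

namespace Pool.Agent.Results.MP_abcac9_co.LinearGap

open Finset Pool.Agent.Lib.MP_abcac9_co

/-- k copies of the graph `G r`, extra vertices of different copies joined. -/
def H (k r : ℕ) : SimpleGraph (Fin k × Vtx r) where
  Adj x y := (x.1 = y.1 ∧ (G r).Adj x.2 y.2) ∨ (x.1 ≠ y.1 ∧ x.2.isLeft ∧ y.2.isLeft)
  symm := ⟨by
    rintro x y (h | h)
    · exact Or.inl ⟨h.1.symm, h.2.symm⟩
    · exact Or.inr ⟨h.1.symm, h.2.2, h.2.1⟩⟩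
  loopless := ⟨by
    rintro x (h | h)
    · exact (G r).irrefl h.2
    · exact h.1 rfl⟩

/-- The embedding of one copy. -/
def emb {k r : ℕ} (a : Fin k) : G r →g H k r where
  toFun u := (a, u)
  map_rel' h := Or.inl ⟨rfl, h⟩

lemma H_conn {k r : ℕ} (hk : 0 < k) (hr : 0 < r) : (H k r).Connected := by
  have : Nonempty (Fin k × Vtx r) := ⟨(⟨0, hk⟩, Sum.inl ⟨0, hr⟩)⟩
  refine ⟨fun x y => ?_⟩
  obtain ⟨a, u⟩ := x
  obtain ⟨b, v⟩ := y
  have h1 : (H k r).Reachable (a, u) (a, Sum.inl ⟨0, hr⟩) := (reach_all ⟨0, hr⟩ u).map (emb a)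
  have h2 : (H k r).Reachable (b, v) (b, Sum.inl ⟨0, hr⟩) := (reach_all ⟨0, hr⟩ v).map (emb b)
  have h3 : (H k r).Reachable (a, Sum.inl ⟨0, hr⟩) (b, Sum.inl ⟨0, hr⟩) := by
    by_cases hab : a = b
    · rw [hab]
    · exact SimpleGraph.Adj.reachable (Or.inr ⟨hab, rfl, rfl⟩)
  exact (h1.trans h3).trans h2.symm

lemma H_deg {k r : ℕ} (hr : 3 ≤ r) (x : Fin k × Vtx r) : 3 ≤ ((H k r).neighborSet x).ncard := by
  classical
  obtain ⟨a, u⟩ := x
  have h := degree_ge hr u
  rw [← SimpleGraph.card_neighborFinset_eq_degree, ← Set.ncard_coe_finset,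
    SimpleGraph.coe_neighborFinset] at h
  refine h.trans (Set.ncard_le_ncard_of_injOn (fun v => (a, v)) ?_ ?_)
  · intro v hv
    exact Or.inl ⟨rfl, hv⟩
  · intro v _ w _ hvw
    simpa using hvw

open Classical in
lemma lower_inr {r : ℕ} (S : Finset (Vtx r))
    (hS : ∀ q, 2 ≤ (S.filter (fun u => (G r).Adj (Sum.inr q) u)).card) :
    r + 12 * (r * r) ≤ S.card + 1 := by
  have hunit : ∀ q : Fin r × Fin r,
      12 ≤ (univ.filter (fun b : Fin 15 => Sum.inr (q, b) ∈ S)).card := by
    intro q
    have := unit_bound (fun b => decide (Sum.inr (q, b) ∈ S)) ?_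
    · simpa using this
    · intro a ha
      refine (hS (q, a)).trans ?_
      refine card_le_card_of_surjOn (fun b => (Sum.inr (q, b) : Vtx r)) ?_
      rintro (k | ⟨q', b⟩) hu
      · simp only [mem_coe, mem_filter] at hu
        exact absurd hu.2.1 ha
      · simp only [mem_coe, mem_filter] at hu
        obtain ⟨hu1, hq, hab⟩ := hu
        subst hq
        exact ⟨b, by simp [hu1, hab], rfl⟩
  have hR : (univ.filter (fun k : Fin r => ¬ (Sum.inl k ∈ S))).card ≤ 1 := by
    rw [card_le_one]
    intro i hi j hj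
    simp only [mem_filter, mem_univ, true_and] at hi hj
    by_contra hij
    have h2 := hS ((i, j), 14)
    have h1 : (S.filter (fun u => (G r).Adj (Sum.inr ((i, j), 14)) u)) ⊆
        {Sum.inr ((i, j), 0)} := by
      rintro (k | ⟨q', b⟩) hu
      · simp only [mem_filter] at hu
        rcases hu.2.2 with h | h | h
        · obtain rfl : k = i := h
          exact absurd hu.1 hi
        · obtain rfl : k = j := h
          exact absurd hu.1 hj
        · exact absurd h hij
      · simp only [mem_filter] at hu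
        obtain ⟨_, hq, hab⟩ := hu
        subst hq
        rw [uadj_last b hab]
        exact mem_singleton_self _
    have := card_le_card h1
    rw [card_singleton] at this
    omega
  have hsum : 12 * (r * r) ≤
      ∑ q : Fin r × Fin r, (univ.filter (fun b : Fin 15 => Sum.inr (q, b) ∈ S)).card := by
    calc 12 * (r * r) = ∑ _q : Fin r × Fin r, 12 := by simp [mul_comm]
      _ ≤ _ := sum_le_sum fun q _ => hunit q
  have hc := card_filter_add_card_filter_not (s := (univ : Finset (Fin r)))
    (fun k : Fin r => Sum.inl k ∈ S)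
  rw [card_univ, Fintype.card_fin] at hc
  rw [card_split S]
  omega

lemma H_lower {k r : ℕ} (S : Set (Fin k × Vtx r))
    (hS : ∀ v, 2 ≤ (S ∩ (H k r).neighborSet v).ncard) :
    (r + 12 * (r * r) - 1) * k ≤ S.ncard := by
  classical
  have hc : ∀ a : Fin k, r + 12 * (r * r) - 1 ≤
      (univ.filter (fun u : Vtx r => (a, u) ∈ S)).card := by
    intro a
    have := lower_inr (r := r) (univ.filter (fun u : Vtx r => (a, u) ∈ S)) ?_
    · omega
    · intro q
      refine (hS (a, Sum.inr q)).trans ?_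
      rw [← Set.ncard_coe_finset]
      refine Set.ncard_le_ncard_of_injOn (fun x => x.2) ?_ ?_
      · rintro ⟨b, v⟩ ⟨h1, h2 | h2⟩
        · obtain rfl : a = b := h2.1
          simp only [coe_filter, mem_filter, mem_univ, true_and, Set.mem_ofPred_eq]
          exact ⟨h1, h2.2⟩
        · exact absurd h2.2.1 (by simp)
      · rintro ⟨b, v⟩ ⟨_, h2 | h2⟩ ⟨c, w⟩ ⟨_, h3 | h3⟩ h
        · obtain rfl : a = b := h2.1
          obtain rfl : a = c := h3.1
          obtain rfl : v = w := h
          rfl
        · exact absurd h3.2.1 (by simp)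
        · exact absurd h2.2.1 (by simp)
        · exact absurd h2.2.1 (by simp)
  have h : S.ncard = ∑ a : Fin k, (univ.filter (fun u : Vtx r => (a, u) ∈ S)).card := by
    rw [Set.ncard_eq_toFinset_card' S]
    have : S.toFinset.card = ∑ v : Fin k × Vtx r, if v ∈ S then 1 else 0 := by
      rw [← card_filter]
      congr 1
      ext v
      simp
    rw [this, Fintype.sum_prod_type]
    simp only [card_filter]
  rw [h]
  calc (r + 12 * (r * r) - 1) * k = ∑ _a : Fin k, (r + 12 * (r * r) - 1) := by simp [mul_comm]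
    _ ≤ _ := sum_le_sum fun a _ => hc a

/-- For every `k ≥ 1` a connected graph of order `1510 k` and minimum degree at least three in
which every double total dominating set has at least `1209 k = 4n/5 + k` vertices. -/
theorem result (k : ℕ) (hk : 1 ≤ k) :
    ∃ (V : Type) (_ : Finite V) (G : SimpleGraph V), Nat.card V = 1510 * k ∧ G.Connected ∧
      (∀ v, 3 ≤ (G.neighborSet v).ncard) ∧
      ∀ S : Set V, (∀ v, 2 ≤ (S ∩ G.neighborSet v).ncard) → 1209 * k ≤ S.ncard := by
  refine ⟨Fin k × Vtx 10, inferInstance, H k 10, ?_, H_conn hk (by norm_num),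
    H_deg (by norm_num), fun S hS => by simpa using H_lower S hS⟩
  rw [Nat.card_eq_fintype_card, Fintype.card_prod, card_Vtx, Fintype.card_fin]
  ring

end Pool.Agent.Results.MP_abcac9_co.LinearGap
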